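import Mathlib
import Pool.Agent.R35.IntervalHall

/-!
# MP_11a02e_co: the bandwidth of `G_{n,k,b}` is not asymptotic to `(c₂+c₃) n^k` for exceptional `β`

For `k = 2`, `β = 3/8` (so `q = 2`, `r = 1/4`; exceptional since `1/4 > 1/5`) we construct, for all
`u`, a numbering of `G_{32u,2,12u}` of bandwidth at most `108u²+6u`; here
`108/1024 = 27/256 = c₁ < c₂+c₃ = 41/384`.
-/

open Finset Filter Topology

namespace Pool.Agent.Results.MP_11a02e_co.Disproof

/-- The vertices of `G_{n,k,b}`: the `k`-element subsets `X` of `{0,…,n}` with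
`max X - min X ≤ b`. -/
def verts (n k b : ℕ) : Finset (Finset ℕ) :=
  ((Finset.range (n + 1)).powersetCard k).filter fun X => ∀ x ∈ X, ∀ y ∈ X, y ≤ x + b

/-- The graph `G_{n,k,b}`: distinct `X`, `Y` are adjacent iff
`max (X ∪ Y) - min (X ∪ Y) ≤ b`. -/
def G (n k b : ℕ) : SimpleGraph (verts n k b) where
  Adj X Y := X ≠ Y ∧ ∀ x ∈ X.1 ∪ Y.1, ∀ y ∈ X.1 ∪ Y.1, y ≤ x + b
  symm := ⟨fun X Y h => ⟨h.1.symm, fun x hx y hy =>
    h.2 x (by rwa [Finset.union_comm]) y (by rwa [Finset.union_comm])⟩⟩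
  loopless := ⟨fun _ h => h.1 rfl⟩

/-- The bandwidth of a finite graph: the least `w` such that some numbering `f` of the vertices
satisfies `|f u - f v| ≤ w` for all edges `uv`. -/
noncomputable def bandwidth {V : Type*} [Fintype V] (H : SimpleGraph V) : ℕ :=
  sInf {w : ℕ | ∃ f : V ≃ Fin (Fintype.card V), ∀ u v, H.Adj u v →
    |((f u : ℕ) : ℤ) - ((f v : ℕ) : ℤ)| ≤ w}

/-- The constant `c₂`. -/
noncomputable def c2 (k q : ℕ) (β : ℝ) : ℝ :=
  β ^ (k - 1) / ((q + 1) * k.factorial) * (k - (k - 1) * β)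

/-- The constant `c₃`. -/
noncomputable def c3 (k q : ℕ) (β r : ℝ) : ℝ :=
  (β - r) ^ k / ((q + 1) * k.factorial) * (q : ℝ) ^ (k - 1)

/-- The statement asked for in Q1. -/
def Q1 : Prop :=
  ∀ (k q : ℕ) (β r : ℝ), 2 ≤ k → 2 ≤ q → 0 < β → β ≤ 1 / 2 → 1 = q * β + r → 0 ≤ r → r < β →
    ((q : ℝ) - 1) / ((q : ℝ) ^ 2 + q - 1) < r →
    ∀ b : ℕ → ℕ, Tendsto (fun n : ℕ => (b n : ℝ) / (β * n)) atTop (𝓝 1) →
      Tendsto (fun n : ℕ => (bandwidth (G n k (b n)) : ℝ) / (n : ℝ) ^ k) atTop
        (𝓝 (c2 k q β + c3 k q β r))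

/-- An injective labelling bounds the bandwidth. -/
theorem bandwidth_le {V : Type*} [Fintype V] (H : SimpleGraph V) (f : V → ℕ)
    (hf : Function.Injective f) (w : ℕ) (h : ∀ u v, H.Adj u v → f u ≤ f v → f v ≤ f u + w) :
    bandwidth H ≤ w := by
  obtain ⟨e, he⟩ := R35.exists_equiv_fin f hf
  refine Nat.sInf_le ⟨e, fun u v huv => ?_⟩
  rcases le_total (f u) (f v) with hh | hh
  · have h1 := he u v hh
    have h2 := h u v huv hh
    rw [abs_le]
    constructor <;> omega
  · have h1 := he v u hh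
    have h2 := h v u huv.symm hh
    rw [abs_le]
    constructor <;> omega

/-- number of pairs in an interval -/
def S (b l : ℕ) : ℕ := ∑ j ∈ Finset.range (l + 1), min b j

theorem S_small (b l : ℕ) (h : l ≤ b) : 2 * S b l = l * (l + 1) := by
  induction l with
  | zero => simp [S]
  | succ l ih =>
    have h1 := ih (by omega)
    unfold S at h1 ⊢
    rw [Finset.sum_range_succ, min_eq_right h, mul_add, h1]
    ring

theorem S_large (b d : ℕ) : 2 * S b (b + d) = b * (b + 1) + 2 * (b * d) := by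
  induction d with
  | zero => simpa using S_small b b le_rfl
  | succ d ih =>
    unfold S at ih ⊢
    rw [show b + (d + 1) + 1 = (b + d + 1) + 1 by ring, Finset.sum_range_succ,
      min_eq_left (by omega : b ≤ b + d + 1), mul_add, ih]
    ring

/-- For a vertex of `G_{n,2,b}`, its two elements. -/
theorem exists_pair {n b : ℕ} (X : verts n 2 b) :
    ∃ p : ℕ × ℕ, p.1 < p.2 ∧ X.1 = {p.1, p.2} ∧ p.2 ≤ n ∧ p.2 ≤ p.1 + b := by
  obtain ⟨X, hX⟩ := X
  rw [verts, Finset.mem_filter, Finset.mem_powersetCard] at hX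
  obtain ⟨⟨hsub, hc⟩, hd⟩ := hX
  obtain ⟨x, y, hxy, rfl⟩ := Finset.card_eq_two.1 hc
  have hx : x ≤ n := by
    have := hsub (Finset.mem_insert_self x {y})
    rw [Finset.mem_range] at this
    omega
  have hy : y ≤ n := by
    have := hsub (Finset.mem_insert_of_mem (Finset.mem_singleton_self y))
    rw [Finset.mem_range] at this
    omega
  have h1 := hd x (by simp) y (by simp)
  have h2 := hd y (by simp) x (by simp)
  rcases lt_or_gt_of_ne hxy with h | h
  · exact ⟨(x, y), h, rfl, hy, h1⟩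
  · exact ⟨(y, x), h, Finset.pair_comm _ _, hx, h2⟩

theorem card_le_S {n b : ℕ} (p : verts n 2 b → ℕ × ℕ)
    (hp : ∀ X, (p X).1 < (p X).2 ∧ X.1 = {(p X).1, (p X).2} ∧ (p X).2 ≤ n ∧ (p X).2 ≤ (p X).1 + b)
    (T : Finset (verts n 2 b)) (a c : ℕ)
    (hT : ∀ X ∈ T, a ≤ (p X).1 ∧ (p X).2 ≤ c) : T.card ≤ S b (c - a) := by
  have : S b (c - a) = ((Finset.range (c - a + 1)).sigma fun j => Finset.range (min b j)).card := by
    rw [Finset.card_sigma]
    simp [S]
  rw [this]
  apply Finset.card_le_card_of_injOn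
    (fun X => (⟨c - (p X).1, (p X).2 - (p X).1 - 1⟩ : Σ _ : ℕ, ℕ))
  · intro X hX
    have h1 := hT X hX
    have h2 := hp X
    simp only [Finset.coe_sigma, Set.mem_sigma_iff, Finset.coe_range, Set.mem_Iio]
    refine ⟨by omega, ?_⟩
    rw [lt_min_iff]
    omega
  · intro X hX Y hY h
    have h1 := hT X hX
    have h2 := hp X
    have h3 := hT Y hY
    have h4 := hp Y
    simp only [Sigma.mk.injEq, heq_eq_eq] at h
    apply Subtype.ext
    rw [h2.2.1, h4.2.1]
    have e1 : (p X).1 = (p Y).1 := by omega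
    have e2 : (p X).2 = (p Y).2 := by omega
    rw [e1, e2]

/-- The window function. -/
def g (u a : ℕ) : ℕ :=
  if a ≤ 8 * u then 12 * u * a else if a ≤ 12 * u then 3 * u * a + 72 * u ^ 2
    else 12 * u * a - 36 * u ^ 2

theorem g_cast (u a : ℕ) : (g u a : ℤ) =
    if a ≤ 8 * u then 12 * (u : ℤ) * a else if a ≤ 12 * u then 3 * (u : ℤ) * a + 72 * (u : ℤ) ^ 2
    else 12 * (u : ℤ) * a - 36 * (u : ℤ) ^ 2 := by
  unfold g
  split_ifs with h1 h2
  · push_cast; ring
  · push_cast; ring
  · rw [Nat.cast_sub]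
    · push_cast; ring
    · nlinarith

theorem g_mono (u : ℕ) : Monotone (g u) := by
  intro a a' h
  have : (g u a : ℤ) ≤ g u a' := by
    rw [g_cast, g_cast]
    have hz : (a : ℤ) ≤ a' := by exact_mod_cast h
    have hu : (0 : ℤ) ≤ u := by positivity
    have ha : (0 : ℤ) ≤ a := by positivity
    split_ifs with h1 h2 h3 h4 h5 h6 h7 h8 <;> try (exfalso; omega)
    all_goals (zify at *; nlinarith)
  exact_mod_cast this

/-- The key inequality. -/
theorem key (u a a' : ℕ) (ha : a ≤ 20 * u) (ha' : a' ≤ 20 * u) (h : a ≤ a' + 12 * u) :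
    S (12 * u) (a' + 12 * u - a) + g u a ≤ g u a' + 108 * u ^ 2 + 6 * u := by
  have hu : (0 : ℤ) ≤ u := by positivity
  have hza : (0 : ℤ) ≤ a := by positivity
  have hza' : (0 : ℤ) ≤ a' := by positivity
  rcases le_total a a' with hle | hle
  · obtain ⟨d, rfl⟩ := Nat.exists_eq_add_of_le hle
    have hS := S_large (12 * u) d
    rw [show a + d + 12 * u - a = 12 * u + d by omega]
    zify at *
    rw [g_cast, g_cast]
    have hd : (0 : ℤ) ≤ d := by positivity
    split_ifs with h1 h2 h3 h4 h5 h6 h7 h8 <;> try (exfalso; omega)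
    all_goals (zify at *; nlinarith)
  · obtain ⟨d, rfl⟩ := Nat.exists_eq_add_of_le hle
    have hd12 : d ≤ 12 * u := by omega
    have hS := S_small (12 * u) (12 * u - d) (by omega)
    rw [show a' + 12 * u - (a' + d) = 12 * u - d by omega]
    obtain ⟨e, he⟩ := Nat.exists_eq_add_of_le hd12
    rw [show 12 * u - d = e by omega] at hS ⊢
    zify at *
    rw [g_cast, g_cast]
    have hd : (0 : ℤ) ≤ d := by positivity
    have hez : (0 : ℤ) ≤ e := by positivity
    have hee : (e : ℤ) = 12 * u - d := by linarith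
    rw [hee] at hS
    have hdd : (0 : ℤ) ≤ d * u := by positivity
    have hux : (0 : ℤ) ≤ u * a' := by positivity
    have hA : (0 : ℤ) ≤ (12 * u - d) * (12 * u + d) := by
      apply mul_nonneg <;> linarith
    -- it suffices to bound `d² - d`
    have hB : (d : ℤ) ≤ 8 * u → (d : ℤ) * d ≤ 64 * (u * u) := fun h8 => by nlinarith
    have hC : (d : ℤ) * d ≤ 72 * (u * u) ∨ (8 * u < (d : ℤ) ∧ 0 ≤ ((d : ℤ) - 6 * u) * (12 * u - d)) := by
      rcases le_or_gt (d : ℤ) (8 * u) with h8 | h8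
      · left
        have := hB h8
        nlinarith
      · right
        refine ⟨h8, mul_nonneg ?_ ?_⟩ <;> linarith
    split_ifs with h1 h2 h3 h4 h5 h6 h7 h8 <;> try (exfalso; omega)
    · zify at *
      nlinarith
    · zify at *
      rcases hC with hC | hC
      · nlinarith
      · nlinarith
    · zify at *
      nlinarith
    · zify at *
      nlinarith
    · zify at *
      nlinarith
    · zify at *
      nlinarith

/-- The bandwidth of `G_{32u,2,12u}` is at most `108u²+6u`. -/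
theorem bandwidth_G_le (u : ℕ) : bandwidth (G (32 * u) 2 (12 * u)) ≤ 108 * u ^ 2 + 6 * u := by
  classical
  choose p hp using fun X : verts (32 * u) 2 (12 * u) => exists_pair X
  obtain ⟨f, hf, hfw⟩ := R35.interval_hall
    (fun X => g u (min (p X).1 (20 * u)))
    (fun X => g u ((p X).2 - 12 * u) + 108 * u ^ 2 + 6 * u)
    (fun X => by
      have h := hp X
      have := key u (min (p X).1 (20 * u)) ((p X).2 - 12 * u) (min_le_right _ _) (by omega)
        (by omega)
      show g u (min (p X).1 (20 * u)) ≤ _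
      omega)
    (fun T s t hT hne => by
      obtain ⟨X0, hX0, hmin⟩ := Finset.exists_min_image T (fun X => min (p X).1 (20 * u)) hne
      obtain ⟨X1, hX1, hmax⟩ := Finset.exists_max_image T (fun X => (p X).2 - 12 * u) hne
      have h0 := hp X0
      have h1 := hp X1
      have hm0 := hmax X0 hX0
      try simp only at hm0
      have hk := key u (min (p X0).1 (20 * u)) ((p X1).2 - 12 * u) (min_le_right _ _) (by omega)
        (by omega)
      have hc := card_le_S p hp T (min (p X0).1 (20 * u)) ((p X1).2 - 12 * u + 12 * u)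
        (fun X hX => by
          have a1 := hmin X hX
          have a2 := hmax X hX
          try simp only at a1 a2
          constructor <;> omega)
      have b1 := (hT X0 hX0).1
      have b2 := (hT X1 hX1).2
      omega)
  refine bandwidth_le _ f hf _ fun X Y hXY hle => ?_
  have h1 := (hfw X).1
  have h2 := (hfw Y).2
  have hX := hp X
  have hY := hp Y
  have hadj : (p Y).2 ≤ (p X).1 + 12 * u := by
    apply hXY.2
    · rw [hX.2.1]; simp
    · rw [hY.2.1]; simp
  have hmono := g_mono u (show (p Y).2 - 12 * u ≤ min (p X).1 (20 * u) by omega)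
  omega

/-- **Disproof of Q1.** For `k = 2`, `β = 3/8` one has `B(G_{32u,2,12u}) ≤ 108u²+6u` for all `u`,
so along `n = 32u`, `b = 12u` the ratio `B/n²` is at most `27/256 + o(1) < 41/384 = c₂ + c₃`;
hence Q1 fails. -/
theorem result :
    (∀ u : ℕ, bandwidth (G (32 * u) 2 (12 * u)) ≤ 108 * u ^ 2 + 6 * u) ∧ ¬ Q1 := by
  refine ⟨bandwidth_G_le, fun hQ => ?_⟩
  have hlim := hQ 2 2 (3 / 8) (1 / 4) le_rfl le_rfl (by norm_num) (by norm_num) (by norm_num)
    (by norm_num) (by norm_num) (by norm_num) (fun n => ⌊(3 / 8 : ℝ) * n⌋₊) (by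
      have h := (tendsto_nat_floor_mul_div_atTop (R := ℝ) (a := 3 / 8) (by norm_num)).comp
        tendsto_natCast_atTop_atTop
      have h' := h.div_const (3 / 8 : ℝ)
      rw [div_self (by norm_num : (3 / 8 : ℝ) ≠ 0)] at h'
      refine h'.congr fun n => ?_
      simp only [Function.comp]
      rw [div_div, mul_comm (n : ℝ) (3 / 8)])
  have hsub : Tendsto (fun u : ℕ => 32 * u) atTop atTop :=
    tendsto_id.const_mul_atTop' (by norm_num)
  have hlim2 := hlim.comp hsub
  have hup : Tendsto (fun u : ℕ => (27 / 256 : ℝ) + 6 / 1024 / (u : ℝ)) atTop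
      (𝓝 (27 / 256 + 0)) :=
    tendsto_const_nhds.add (tendsto_const_div_atTop_nhds_zero_nat _)
  have hle : c2 2 2 (3 / 8) + c3 2 2 (3 / 8) (1 / 4) ≤ 27 / 256 + 0 := by
    refine le_of_tendsto_of_tendsto hlim2 hup ?_
    filter_upwards [eventually_gt_atTop 0] with u hu
    simp only [Function.comp]
    have hfl : ⌊(3 / 8 : ℝ) * ((32 * u : ℕ) : ℝ)⌋₊ = 12 * u := by
      rw [show (3 / 8 : ℝ) * ((32 * u : ℕ) : ℝ) = ((12 * u : ℕ) : ℝ) by push_cast; ring,
        Nat.floor_natCast]
    rw [hfl]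
    have hb : (bandwidth (G (32 * u) 2 (12 * u)) : ℝ) ≤ 108 * (u : ℝ) ^ 2 + 6 * u := by
      exact_mod_cast bandwidth_G_le u
    have hu' : (0 : ℝ) < u := by exact_mod_cast hu
    rw [div_le_iff₀ (by positivity)]
    push_cast
    have : (27 / 256 + 6 / 1024 / (u : ℝ)) * (32 * (u : ℝ)) ^ 2 = 108 * (u : ℝ) ^ 2 + 6 * u := by
      field_simp
      ring
    linarith
  norm_num [c2, c3, Nat.factorial] at hle

end Pool.Agent.Results.MP_11a02e_co.Disproof
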